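import Pool.Agent.N300.UN.Stubs

/-!
# A measure preserving continuous curve `[0,1] → [0,1]^n` (an `n`-dimensional Peano curve)
-/

set_option autoImplicit false

open scoped ComplexConjugate unitInterval
open MeasureTheory Set Filter Topology

noncomputable section

namespace Pool.Agent.N768.UN

open Pool.Agent.H923R2.FP Pool.Agent.H923R2.FZ Pool.Agent.N300.UN

namespace HC

/-! ### The integral on the cube is faithful -/

instance openPos_I : Measure.IsOpenPosMeasure (volume : Measure I) where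
  open_pos := by
    intro U hU hne h0
    obtain ⟨V, hV, rfl⟩ := isOpen_induced_iff.1 hU
    obtain ⟨x, hx⟩ := hne
    have hcl : (x : ℝ) ∈ closure (Ioo (0 : ℝ) 1) := by
      rw [closure_Ioo (by norm_num)]
      exact x.2
    have hne' : (V ∩ Ioo (0 : ℝ) 1).Nonempty := mem_closure_iff.1 hcl V hV hx
    have hpos : 0 < volume (V ∩ Ioo (0 : ℝ) 1) := (hV.inter isOpen_Ioo).measure_pos volume hne'
    rw [unitInterval.volume_apply] at h0
    have hsub : V ∩ Ioo (0 : ℝ) 1 ⊆ Subtype.val '' (Subtype.val ⁻¹' V : Set I) := by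
      rintro y ⟨hy1, hy2⟩
      exact ⟨⟨y, Ioo_subset_Icc_self hy2⟩, hy1, rfl⟩
    exact absurd (lt_of_lt_of_le hpos ((measure_mono hsub).trans h0.le)) (lt_irrefl _)

lemma integrable_cube {n : ℕ} (f : C(Cube n, ℂ)) : Integrable (fun x => f x) := by
  refine Integrable.of_bound (C := ‖f‖) f.continuous.aestronglyMeasurable ?_
  exact Filter.Eventually.of_forall (fun x => f.norm_coe_le_norm x)

end HC

open HC in
theorem t_LEBN : S_LEBN := by
  intro n
  refine ⟨{ toFun := lebn n, map_add' := fun f g => ?_, map_smul' := fun c f => ?_ }, ?_,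
    fun f => rfl⟩
  · exact integral_add (integrable_cube f) (integrable_cube g)
  · exact integral_const_mul c _
  · constructor
    · change ∫ x : Cube n, (1 : C(Cube n, ℂ)) x = 1
      simp
    · intro x y
      rw [mul_comm]
    · intro f
      change ∫ x : Cube n, (star f) x = conj (∫ x : Cube n, f x)
      rw [← integral_conj]
      rfl
    · intro f
      change 0 ≤ (∫ x : Cube n, (star f * f) x).re
      have h1 : ∀ x, (star f * f) x = ((‖f x‖ ^ 2 : ℝ) : ℂ) := by
        intro x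
        change conj (f x) * f x = _
        rw [mul_comm, Complex.mul_conj, Complex.normSq_eq_norm_sq]
      simp_rw [h1]
      rw [integral_complex_ofReal]
      rw [Complex.ofReal_re]
      exact integral_nonneg (fun x => by positivity)
    · intro f hf
      change (∫ x : Cube n, (star f * f) x).re = 0 at hf
      have h1 : ∀ x, (star f * f) x = ((‖f x‖ ^ 2 : ℝ) : ℂ) := by
        intro x
        change conj (f x) * f x = _
        rw [mul_comm, Complex.mul_conj, Complex.normSq_eq_norm_sq]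
      simp_rw [h1] at hf
      rw [integral_complex_ofReal, Complex.ofReal_re] at hf
      have hc : Continuous (fun x => ‖f x‖ ^ 2) := by fun_prop
      have hint : Integrable (fun x : Cube n => ‖f x‖ ^ 2) := by
        refine Integrable.of_bound (C := ‖f‖ ^ 2) hc.aestronglyMeasurable ?_
        refine Filter.Eventually.of_forall (fun x => ?_)
        rw [Real.norm_eq_abs, abs_of_nonneg (by positivity)]
        exact pow_le_pow_left₀ (norm_nonneg _) (f.norm_coe_le_norm x) 2
      have h2 := (integral_eq_zero_iff_of_nonneg (fun x => by positivity) hint).1 hf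
      have h3 : (fun x : Cube n => ‖f x‖ ^ 2) = fun _ => 0 :=
        (Continuous.ae_eq_iff_eq (volume : Measure (Cube n)) hc continuous_const).1 h2
      ext x
      have := congrFun h3 x
      simpa using this
    · intro f
      change ‖∫ x : Cube n, f x‖ ≤ ‖f‖
      have := norm_integral_le_of_norm_le_const (μ := (volume : Measure (Cube n)))
        (f := fun x => f x) (C := ‖f‖) (Filter.Eventually.of_forall (fun x => f.norm_coe_le_norm x))
      simpa using this

namespace HC

/-! ### The Peano maps -/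

/-- `s ↦ (d + s) / 3` -/
def ad (d : Fin 3) (s : I) : I :=
  ⟨(((d : ℕ) : ℝ) + s) / 3, by
    have h0 := s.2.1
    have h1 := s.2.2
    have h2 : (((d : ℕ) : ℝ)) ≤ 2 := by exact_mod_cast Nat.lt_succ_iff.1 d.2
    have h3 : (0 : ℝ) ≤ ((d : ℕ) : ℝ) := by positivity
    constructor <;> linarith⟩

lemma continuous_ad (d : Fin 3) : Continuous (ad d) := by
  unfold ad
  fun_prop

/-- the reflections -/
def rd (d : Fin 3) (s : I) : I := if d = 1 then σ s else s

lemma continuous_rd (d : Fin 3) : Continuous (rd d) := by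
  unfold rd
  split_ifs
  · exact unitInterval.continuous_symm
  · exact continuous_id

lemma mp_rd (d : Fin 3) : MeasurePreserving (rd d) (volume : Measure I) volume := by
  unfold rd
  split_ifs
  · exact unitInterval.measurePreserving_symm
  · exact MeasurePreserving.id _

/-- the three maps of the cube -/
def Ad {k : ℕ} (d : Fin 3) (z : Cube (k + 1)) : Cube (k + 1) :=
  Fin.cons (ad d (z (Fin.last k))) (fun i => rd d (z i.castSucc))

lemma continuous_cons {k : ℕ} : Continuous (fun p : I × Cube k => (Fin.cons p.1 p.2 : Cube (k + 1))) := by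
  refine continuous_pi (fun i => ?_)
  refine Fin.cases ?_ (fun j => ?_) i
  · exact continuous_fst
  · exact (continuous_apply j).comp continuous_snd

lemma continuous_Ad {k : ℕ} (d : Fin 3) : Continuous (Ad d : Cube (k + 1) → Cube (k + 1)) := by
  refine continuous_pi (fun i => ?_)
  refine Fin.cases ?_ (fun j => ?_) i
  · exact (continuous_ad d).comp (continuous_apply _)
  · exact (continuous_rd d).comp (continuous_apply _)

lemma Ad_00 {k : ℕ} : Ad 0 (fun _ => 0 : Cube (k + 1)) = fun _ => 0 := by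
  ext i
  refine Fin.cases ?_ (fun j => ?_) i
  · simp [Ad, ad]
  · simp [Ad, rd]

lemma Ad_21 {k : ℕ} : Ad 2 (fun _ => 1 : Cube (k + 1)) = fun _ => 1 := by
  ext i
  refine Fin.cases ?_ (fun j => ?_) i
  · simp [Ad, ad]
    norm_num
  · simp [Ad, rd]

lemma Ad_01 {k : ℕ} : Ad 0 (fun _ => 1 : Cube (k + 1)) = Ad 1 (fun _ => 0) := by
  ext i
  refine Fin.cases ?_ (fun j => ?_) i
  · simp [Ad, ad]
  · simp [Ad, rd]

lemma Ad_11 {k : ℕ} : Ad 1 (fun _ => 1 : Cube (k + 1)) = Ad 2 (fun _ => 0) := by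
  ext i
  refine Fin.cases ?_ (fun j => ?_) i
  · simp [Ad, ad]
    norm_num
  · simp [Ad, rd]

/-! ### The approximating curves -/

/-- the approximating curves -/
def P {k : ℕ} : ℕ → ℝ → Cube (k + 1)
  | 0 => fun t _ => projIcc 0 1 zero_le_one t
  | m + 1 => fun t => if t ≤ 1 / 3 then Ad 0 (P m (3 * t - 0)) else
      if t ≤ 2 / 3 then Ad 1 (P m (3 * t - 1)) else Ad 2 (P m (3 * t - 2))

lemma P_zero {k : ℕ} (m : ℕ) : ∀ t : ℝ, t ≤ 0 → (P m t : Cube (k + 1)) = fun _ => 0 := by
  induction m with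
  | zero =>
    intro t ht
    ext i
    simp [P, projIcc_of_le_left zero_le_one ht]
  | succ m ih =>
    intro t ht
    have h1 : t ≤ 1 / 3 := by linarith
    simp only [P, if_pos h1]
    rw [ih _ (by linarith), Ad_00]

lemma P_one {k : ℕ} (m : ℕ) : ∀ t : ℝ, 1 ≤ t → (P m t : Cube (k + 1)) = fun _ => 1 := by
  induction m with
  | zero =>
    intro t ht
    ext i
    simp [P, projIcc_of_right_le zero_le_one ht]
  | succ m ih =>
    intro t ht
    have h1 : ¬ t ≤ 1 / 3 := by intro h; linarith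
    have h2 : ¬ t ≤ 2 / 3 := by intro h; linarith
    simp only [P, if_neg h1, if_neg h2]
    rw [ih _ (by linarith), Ad_21]

lemma continuous_P {k : ℕ} (m : ℕ) : Continuous (P m : ℝ → Cube (k + 1)) := by
  induction m with
  | zero => exact continuous_pi (fun _ => continuous_projIcc (h := zero_le_one))
  | succ m ih =>
    have hc : ∀ (d : Fin 3) (a : ℝ), Continuous (fun t : ℝ => Ad d (P m (3 * t - a) : Cube (k + 1))) :=
      fun d a => (continuous_Ad d).comp (ih.comp (by fun_prop))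
    refine Continuous.if_le (hc 0 0) (Continuous.if_le (hc 1 1) (hc 2 2) continuous_id
      continuous_const ?_) continuous_id continuous_const ?_
    · intro t ht
      rw [P_one m _ (by linarith), P_zero m _ (by linarith), Ad_11]
    · intro t ht
      have h1 : t ≤ 2 / 3 := by linarith
      rw [if_pos h1, P_one m _ (by linarith), P_zero m _ (by linarith), Ad_01]

/-- weighted closeness -/
def Cl {k : ℕ} (ρ r : ℝ) (x y : Cube (k + 1)) : Prop :=
  ∀ i : Fin (k + 1), ρ ^ (i : ℕ) * |(x i : ℝ) - y i| ≤ r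

lemma Cl_Ad {k : ℕ} {ρ r : ℝ} (hρ : 0 < ρ) (hρ' : 1 / 3 ≤ ρ ^ (k + 1)) (d : Fin 3)
    {x y : Cube (k + 1)} (h : Cl ρ r x y) : Cl ρ (ρ * r) (Ad d x) (Ad d y) := by
  intro i
  refine Fin.cases ?_ (fun j => ?_) i
  · have h1 := h (Fin.last k)
    have h2 : |((Ad d x 0 : I) : ℝ) - (Ad d y 0 : I)| = 1 / 3 * |(x (Fin.last k) : ℝ) - y (Fin.last k)| := by
      have : ((Ad d x 0 : I) : ℝ) - (Ad d y 0 : I) =
          1 / 3 * ((x (Fin.last k) : ℝ) - y (Fin.last k)) := by
        simp only [Ad, Fin.cons_zero, ad]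
        ring
      rw [this, abs_mul]
      norm_num
    rw [h2]
    simp only [Fin.val_last] at h1
    simp only [Fin.val_zero, pow_zero, one_mul]
    have h3 : 0 ≤ |(x (Fin.last k) : ℝ) - y (Fin.last k)| := abs_nonneg _
    calc 1 / 3 * |(x (Fin.last k) : ℝ) - y (Fin.last k)|
        ≤ ρ ^ (k + 1) * |(x (Fin.last k) : ℝ) - y (Fin.last k)| :=
          mul_le_mul_of_nonneg_right hρ' h3
      _ = ρ * (ρ ^ k * |(x (Fin.last k) : ℝ) - y (Fin.last k)|) := by ring
      _ ≤ ρ * r := mul_le_mul_of_nonneg_left h1 hρ.le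
  · have h1 := h j.castSucc
    have h2 : |((Ad d x j.succ : I) : ℝ) - (Ad d y j.succ : I)| =
        |(x j.castSucc : ℝ) - y j.castSucc| := by
      simp only [Ad, Fin.cons_succ, rd]
      split_ifs
      · rw [unitInterval.coe_symm_eq, unitInterval.coe_symm_eq]
        rw [show (1 - (x j.castSucc : ℝ)) - (1 - (y j.castSucc : ℝ)) =
          -((x j.castSucc : ℝ) - y j.castSucc) by ring, abs_neg]
      · rfl
    rw [h2]
    simp only [Fin.val_castSucc] at h1
    simp only [Fin.val_succ]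
    calc ρ ^ ((j : ℕ) + 1) * |(x j.castSucc : ℝ) - y j.castSucc|
        = ρ * (ρ ^ (j : ℕ) * |(x j.castSucc : ℝ) - y j.castSucc|) := by ring
      _ ≤ ρ * r := mul_le_mul_of_nonneg_left h1 hρ.le

lemma Cl_one {k : ℕ} {ρ : ℝ} (hρ : 0 < ρ) (hρ1 : ρ ≤ 1) (x y : Cube (k + 1)) : Cl ρ 1 x y := by
  intro i
  have h1 : ρ ^ (i : ℕ) ≤ 1 := pow_le_one₀ hρ.le hρ1
  have h2 : |(x i : ℝ) - y i| ≤ 1 := by
    rw [abs_le]
    constructor <;> linarith [(x i).2.1, (x i).2.2, (y i).2.1, (y i).2.2]
  calc _ ≤ 1 * 1 := mul_le_mul h1 h2 (abs_nonneg _) (by norm_num)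
    _ = 1 := by norm_num

lemma Cl_P {k : ℕ} {ρ : ℝ} (hρ : 0 < ρ) (hρ1 : ρ ≤ 1) (hρ' : 1 / 3 ≤ ρ ^ (k + 1)) (m : ℕ) :
    ∀ t : ℝ, Cl ρ (ρ ^ m) (P m t : Cube (k + 1)) (P (m + 1) t) := by
  induction m with
  | zero =>
    intro t
    rw [pow_zero]
    exact Cl_one hρ hρ1 _ _
  | succ m ih =>
    intro t
    rw [pow_succ, mul_comm]
    by_cases h1 : t ≤ 1 / 3
    · have e1 : (P (m + 1) t : Cube (k + 1)) = Ad 0 (P m (3 * t - 0)) := by simp only [P, if_pos h1]
      have e2 : (P (m + 1 + 1) t : Cube (k + 1)) = Ad 0 (P (m + 1) (3 * t - 0)) := by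
        conv_lhs => rw [P]
        simp only [if_pos h1]
      rw [e1, e2]
      exact Cl_Ad hρ hρ' 0 (ih _)
    · by_cases h2 : t ≤ 2 / 3
      · have e1 : (P (m + 1) t : Cube (k + 1)) = Ad 1 (P m (3 * t - 1)) := by
          simp only [P, if_neg h1, if_pos h2]
        have e2 : (P (m + 1 + 1) t : Cube (k + 1)) = Ad 1 (P (m + 1) (3 * t - 1)) := by
          conv_lhs => rw [P]
          simp only [if_neg h1, if_pos h2]
        rw [e1, e2]
        exact Cl_Ad hρ hρ' 1 (ih _)
      · have e1 : (P (m + 1) t : Cube (k + 1)) = Ad 2 (P m (3 * t - 2)) := by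
          simp only [P, if_neg h1, if_neg h2]
        have e2 : (P (m + 1 + 1) t : Cube (k + 1)) = Ad 2 (P (m + 1) (3 * t - 2)) := by
          conv_lhs => rw [P]
          simp only [if_neg h1, if_neg h2]
        rw [e1, e2]
        exact Cl_Ad hρ hρ' 2 (ih _)

lemma dist_of_Cl {k : ℕ} {ρ r : ℝ} (hρ : 0 < ρ) (hρ1 : ρ ≤ 1) {x y : Cube (k + 1)}
    (h : Cl ρ r x y) : dist x y ≤ r / ρ ^ k := by
  have hr : 0 ≤ r := le_trans (by positivity) (h 0)
  rw [dist_pi_le_iff (by positivity)]
  intro i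
  rw [Subtype.dist_eq, Real.dist_eq, le_div_iff₀ (by positivity)]
  have h1 := h i
  have h2 : ρ ^ k ≤ ρ ^ (i : ℕ) := pow_le_pow_of_le_one hρ.le hρ1 (Nat.lt_succ_iff.1 i.2)
  calc |(x i : ℝ) - y i| * ρ ^ k ≤ |(x i : ℝ) - y i| * ρ ^ (i : ℕ) :=
        mul_le_mul_of_nonneg_left h2 (abs_nonneg _)
    _ ≤ r := by rw [mul_comm]; exact h1

/-! ### Integration -/

lemma integral_I (h : ℝ → ℂ) : ∫ t : I, h (t : ℝ) = ∫ t in (0 : ℝ)..1, h t := by
  rw [intervalIntegral.integral_of_le zero_le_one, ← integral_Icc_eq_integral_Ioc]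
  exact unitInterval.measurePreserving_coe.integral_comp unitInterval.measurableEmbedding_coe h

lemma third (g : ℝ → ℂ) (d : ℝ) :
    ∫ t in (d / 3)..((d + 1) / 3), g (3 * t - d) = (1 / 3 : ℂ) * ∫ t in (0 : ℝ)..1, g t := by
  rw [intervalIntegral.integral_comp_mul_sub g (by norm_num : (3 : ℝ) ≠ 0)]
  have e1 : (3 : ℝ) * (d / 3) - d = 0 := by ring
  have e2 : (3 : ℝ) * ((d + 1) / 3) - d = 1 := by ring
  rw [e1, e2]
  rw [Complex.real_smul]
  push_cast
  ring

/-- the composition of a function on the cube with `Ad d` -/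
def cA {k : ℕ} (f : C(Cube (k + 1), ℂ)) (d : Fin 3) : C(Cube (k + 1), ℂ) :=
  f.comp ⟨Ad d, continuous_Ad d⟩

lemma I_rec {k : ℕ} (f : C(Cube (k + 1), ℂ)) (m : ℕ) :
    ∫ t : I, f (P (m + 1) (t : ℝ)) = (1 / 3 : ℂ) * ∑ d : Fin 3, ∫ t : I, cA f d (P m (t : ℝ)) := by
  have hF : Continuous (fun t : ℝ => f (P (m + 1) t)) := f.continuous.comp (continuous_P (m + 1))
  have hi : ∀ a b : ℝ, IntervalIntegrable (fun t : ℝ => f (P (m + 1) t)) volume a b :=
    fun a b => hF.intervalIntegrable a b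
  rw [integral_I (fun t => f (P (m + 1) t))]
  have hI : ∀ d : Fin 3, ∫ t : I, cA f d (P m (t : ℝ)) = ∫ t in (0 : ℝ)..1, cA f d (P m t) :=
    fun d => integral_I (fun t => cA f d (P m t))
  simp_rw [hI]
  rw [← intervalIntegral.integral_add_adjacent_intervals (hi 0 (1 / 3)) (hi (1 / 3) 1),
    ← intervalIntegral.integral_add_adjacent_intervals (hi (1 / 3) (2 / 3)) (hi (2 / 3) 1)]
  have h0 : ∫ t in (0 : ℝ)..(1 / 3), f (P (m + 1) t) =
      (1 / 3 : ℂ) * ∫ t in (0 : ℝ)..1, cA f 0 (P m t) := by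
    have h := third (fun t => cA f 0 (P m t)) 0
    rw [show (0 : ℝ) / 3 = 0 by norm_num, show ((0 : ℝ) + 1) / 3 = 1 / 3 by norm_num] at h
    rw [← h]
    refine intervalIntegral.integral_congr (fun t ht => ?_)
    rw [uIcc_of_le (by norm_num)] at ht
    have h1 : t ≤ 1 / 3 := ht.2
    simp only [P, if_pos h1]
    rfl
  have h1 : ∫ t in (1 / 3 : ℝ)..(2 / 3), f (P (m + 1) t) =
      (1 / 3 : ℂ) * ∫ t in (0 : ℝ)..1, cA f 1 (P m t) := by
    have h := third (fun t => cA f 1 (P m t)) 1
    rw [show ((1 : ℝ) + 1) / 3 = 2 / 3 by norm_num] at h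
    rw [← h]
    refine intervalIntegral.integral_congr_ae (Filter.Eventually.of_forall (fun t ht => ?_))
    rw [uIoc_of_le (by norm_num)] at ht
    have h1 : ¬ t ≤ 1 / 3 := not_le.2 ht.1
    have h2 : t ≤ 2 / 3 := ht.2
    simp only [P, if_neg h1, if_pos h2]
    rfl
  have h2 : ∫ t in (2 / 3 : ℝ)..1, f (P (m + 1) t) =
      (1 / 3 : ℂ) * ∫ t in (0 : ℝ)..1, cA f 2 (P m t) := by
    have h := third (fun t => cA f 2 (P m t)) 2
    rw [show ((2 : ℝ) + 1) / 3 = 1 by norm_num] at h
    rw [← h]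
    refine intervalIntegral.integral_congr_ae (Filter.Eventually.of_forall (fun t ht => ?_))
    rw [uIoc_of_le (by norm_num)] at ht
    have h1 : ¬ t ≤ 1 / 3 := by
      intro h; linarith [ht.1]
    have h2 : ¬ t ≤ 2 / 3 := not_le.2 ht.1
    simp only [P, if_neg h1, if_neg h2]
    rfl
  rw [h0, h1, h2, Fin.sum_univ_three]
  ring

/-- the average over the last `k` coordinates -/
def av {k : ℕ} (f : C(Cube (k + 1), ℂ)) (a : I) : ℂ := ∫ z : Cube k, f (Fin.cons a z)

lemma continuous_av {k : ℕ} (f : C(Cube (k + 1), ℂ)) : Continuous (av f) := by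
  have h := continuous_parametric_integral_of_continuous (μ := (volume : Measure (Cube k)))
    (f := fun (a : I) (z : Cube k) => f (Fin.cons a z))
    (f.continuous.comp continuous_cons) isCompact_univ
  simpa [av] using! h

lemma lebn_cons {k : ℕ} (g : I × Cube k → ℂ) (hg : Continuous g) :
    ∫ p : I × Cube k, g p = ∫ a : I, ∫ z : Cube k, g (a, z) := by
  rw [Measure.volume_eq_prod]
  refine integral_prod g ?_
  obtain ⟨C, hC⟩ := isCompact_univ.exists_bound_of_continuousOn hg.continuousOn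
  exact Integrable.of_bound (C := C) hg.aestronglyMeasurable
    (Filter.Eventually.of_forall (fun x => hC x (mem_univ _)))

lemma J_eq {k : ℕ} (f : C(Cube (k + 1), ℂ)) : lebn (k + 1) f = ∫ a : I, av f a := by
  have h1 := (volume_preserving_piFinSuccAbove (fun _ : Fin (k + 1) => I) 0).integral_comp'
    (fun p : I × Cube k => f (Fin.cons p.1 p.2))
  have h2 := lebn_cons (fun p : I × Cube k => f (Fin.cons p.1 p.2))
    (f.continuous.comp continuous_cons)
  unfold lebn av
  refine Eq.trans ?_ (h1.trans h2)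
  congr 1
  ext x
  congr 1
  ext i
  refine Fin.cases ?_ (fun j => ?_) i
  · rfl
  · rfl

lemma J_Ad {k : ℕ} (f : C(Cube (k + 1), ℂ)) (d : Fin 3) :
    lebn (k + 1) (cA f d) = ∫ a : I, av f (ad d a) := by
  have hc : Continuous (fun p : I × Cube k =>
      f (Fin.cons (ad d p.1) (fun i => rd d (p.2 i)))) := by
    refine f.continuous.comp (continuous_cons.comp (Continuous.prodMk
      ((continuous_ad d).comp continuous_fst) ?_))
    exact continuous_pi (fun i => (continuous_rd d).comp ((continuous_apply i).comp continuous_snd))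
  have h1 := (volume_preserving_piFinSuccAbove (fun _ : Fin (k + 1) => I) (Fin.last k)).integral_comp'
    (fun p : I × Cube k => f (Fin.cons (ad d p.1) (fun i => rd d (p.2 i))))
  rw [lebn_cons _ hc] at h1
  have h2 : ∀ a : I, ∫ z : Cube k, f (Fin.cons (ad d a) (fun i => rd d (z i))) = av f (ad d a) := by
    intro a
    have hmp : MeasurePreserving (fun (z : Cube k) (i : Fin k) => rd d (z i)) volume volume :=
      volume_preserving_pi (fun i => mp_rd d)
    unfold av
    have hcc : Continuous (fun z : Cube k => f (Fin.cons (ad d a) z)) :=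
      f.continuous.comp (continuous_cons.comp (Continuous.prodMk continuous_const continuous_id))
    have h3 := integral_map (μ := (volume : Measure (Cube k))) hmp.aemeasurable
      (f := fun z : Cube k => f (Fin.cons (ad d a) z)) hcc.aestronglyMeasurable
    rw [hmp.map_eq] at h3
    exact h3.symm
  simp only at h1
  simp_rw [h2] at h1
  rw [← h1]
  unfold lebn cA
  congr 1
  ext x
  change f (Ad d x) = _
  unfold Ad
  congr 2
  funext i
  change rd d (x i.castSucc) = rd d (x ((Fin.last k).succAbove i))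
  rw [Fin.succAbove_last]

lemma J_rec {k : ℕ} (f : C(Cube (k + 1), ℂ)) :
    lebn (k + 1) f = (1 / 3 : ℂ) * ∑ d : Fin 3, lebn (k + 1) (cA f d) := by
  simp_rw [J_Ad]
  rw [J_eq]
  set h : ℝ → ℂ := fun t => av f (projIcc 0 1 zero_le_one t) with hh
  have hhc : Continuous h := (continuous_av f).comp continuous_projIcc
  have hi : ∀ a b : ℝ, IntervalIntegrable h volume a b := fun a b => hhc.intervalIntegrable a b
  have e0 : ∫ a : I, av f a = ∫ t in (0 : ℝ)..1, h t := by
    rw [← integral_I]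
    congr 1
    ext a
    simp only [hh, projIcc_val]
  have e1 : ∀ d : Fin 3, ∫ a : I, av f (ad d a) =
      3 * ∫ t in ((d : ℕ) / 3 : ℝ)..(((d : ℕ) + 1) / 3), h t := by
    intro d
    have h1 : ∫ a : I, av f (ad d a) = ∫ t in (0 : ℝ)..1, h (((d : ℕ) : ℝ) / 3 + t / 3) := by
      rw [← integral_I]
      congr 1
      ext a
      simp only [hh]
      congr 1
      have : ((d : ℕ) : ℝ) / 3 + (a : ℝ) / 3 = ((ad d a : I) : ℝ) := by
        simp only [ad]; ring
      rw [this, projIcc_val]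
    rw [h1, intervalIntegral.integral_comp_add_div h (by norm_num : (3 : ℝ) ≠ 0)]
    rw [Complex.real_smul]
    have e2 : ((d : ℕ) : ℝ) / 3 + 0 / 3 = ((d : ℕ) : ℝ) / 3 := by ring
    have e3 : ((d : ℕ) : ℝ) / 3 + 1 / 3 = (((d : ℕ) : ℝ) + 1) / 3 := by ring
    rw [e2, e3]
    push_cast
    ring
  rw [e0, Fin.sum_univ_three, e1, e1, e1]
  rw [← intervalIntegral.integral_add_adjacent_intervals (hi 0 (1 / 3)) (hi (1 / 3) 1),
    ← intervalIntegral.integral_add_adjacent_intervals (hi (1 / 3) (2 / 3)) (hi (2 / 3) 1)]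
  simp only [Fin.val_zero, Fin.val_one, Fin.val_two, Nat.cast_zero, Nat.cast_one, Nat.cast_ofNat]
  rw [show (0 : ℝ) / 3 = 0 by norm_num, show ((0 : ℝ) + 1) / 3 = 1 / 3 by norm_num,
    show ((1 : ℝ) + 1) / 3 = 2 / 3 by norm_num, show ((2 : ℝ) + 1) / 3 = 1 by norm_num]
  ring

lemma est {k : ℕ} {ρ : ℝ} (hρ : 0 < ρ) (hρ1 : ρ ≤ 1) (hρ' : 1 / 3 ≤ ρ ^ (k + 1)) {ε : ℝ} (m : ℕ) :
    ∀ f : C(Cube (k + 1), ℂ), (∀ x y, Cl ρ (ρ ^ m) x y → ‖f x - f y‖ ≤ ε) →
      ‖(∫ t : I, f (P m (t : ℝ))) - lebn (k + 1) f‖ ≤ 2 * ε := by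
  induction m with
  | zero =>
    intro f hf
    have hf' : ∀ x y, ‖f x - f y‖ ≤ ε := fun x y => hf x y (by rw [pow_zero]; exact Cl_one hρ hρ1 _ _)
    set x0 : Cube (k + 1) := fun _ => 0
    have h1 : ‖(∫ t : I, f (P 0 (t : ℝ))) - f x0‖ ≤ ε := by
      have hc : Continuous (fun t : I => f (P 0 (t : ℝ))) :=
        f.continuous.comp ((continuous_P 0).comp continuous_subtype_val)
      have hint : Integrable (fun t : I => f (P 0 (t : ℝ))) :=
        Integrable.of_bound (C := ‖f‖) hc.aestronglyMeasurable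
          (Filter.Eventually.of_forall (fun x => f.norm_coe_le_norm _))
      have e : (∫ t : I, f (P 0 (t : ℝ))) - f x0 = ∫ t : I, (f (P 0 (t : ℝ)) - f x0) := by
        rw [integral_sub hint (integrable_const _)]
        simp
      rw [e]
      have := norm_integral_le_of_norm_le_const (μ := (volume : Measure I))
        (f := fun t : I => f (P 0 (t : ℝ)) - f x0) (C := ε)
        (Filter.Eventually.of_forall (fun t => hf' _ _))
      simpa using this
    have h2 : ‖lebn (k + 1) f - f x0‖ ≤ ε := by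
      have e : lebn (k + 1) f - f x0 = ∫ t : Cube (k + 1), (f t - f x0) := by
        rw [integral_sub (integrable_cube f) (integrable_const _)]
        simp [lebn]
      rw [e]
      have := norm_integral_le_of_norm_le_const (μ := (volume : Measure (Cube (k + 1))))
        (f := fun t => f t - f x0) (C := ε)
        (Filter.Eventually.of_forall (fun t => hf' _ _))
      simpa using this
    calc ‖(∫ t : I, f (P 0 (t : ℝ))) - lebn (k + 1) f‖ =
        ‖((∫ t : I, f (P 0 (t : ℝ))) - f x0) - (lebn (k + 1) f - f x0)‖ := by congr 1; ring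
      _ ≤ ε + ε := (norm_sub_le _ _).trans (add_le_add h1 h2)
      _ = 2 * ε := by ring
  | succ m ih =>
    intro f hf
    have h1 : ∀ d : Fin 3, ‖(∫ t : I, cA f d (P m (t : ℝ))) - lebn (k + 1) (cA f d)‖ ≤ 2 * ε := by
      intro d
      refine ih (cA f d) (fun x y hxy => ?_)
      refine hf (Ad d x) (Ad d y) ?_
      rw [pow_succ, mul_comm]
      exact Cl_Ad hρ hρ' d hxy
    rw [I_rec, J_rec, ← mul_sub, ← Finset.sum_sub_distrib, norm_mul]
    calc ‖(1 / 3 : ℂ)‖ * ‖∑ d : Fin 3, ((∫ t : I, cA f d (P m (t : ℝ))) - lebn (k + 1) (cA f d))‖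
        ≤ ‖(1 / 3 : ℂ)‖ * ∑ d : Fin 3, (2 * ε) := by
          refine mul_le_mul_of_nonneg_left ((norm_sum_le _ _).trans
            (Finset.sum_le_sum (fun d _ => h1 d))) (norm_nonneg _)
      _ = 2 * ε := by
          rw [Finset.sum_const, Finset.card_univ, Fintype.card_fin]
          simp

end HC

open HC in
theorem t_HC : S_HC := by
  intro n hn
  obtain ⟨k, rfl⟩ : ∃ k, n = k + 1 := ⟨n - 1, by omega⟩
  -- the weight
  obtain ⟨ρ, hρ, hρ1, hρ'⟩ : ∃ ρ : ℝ, 0 < ρ ∧ ρ < 1 ∧ 1 / 3 ≤ ρ ^ (k + 1) := by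
    refine ⟨1 + -(1 / (2 * ((k : ℝ) + 1))), ?_, ?_, ?_⟩
    · have : 1 / (2 * ((k : ℝ) + 1)) ≤ 1 / 2 := by
        apply one_div_le_one_div_of_le (by norm_num)
        have : (0 : ℝ) ≤ k := by positivity
        linarith
      linarith
    · have : 0 < 1 / (2 * ((k : ℝ) + 1)) := by positivity
      linarith
    · have h0 : 1 / (2 * ((k : ℝ) + 1)) ≤ 1 / 2 := by
        apply one_div_le_one_div_of_le (by norm_num)
        have : (0 : ℝ) ≤ k := by positivity
        linarith
      have h1 := one_add_mul_le_pow (a := -(1 / (2 * ((k : ℝ) + 1)))) (by linarith) (k + 1)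
      have h2 : ((k + 1 : ℕ) : ℝ) * -(1 / (2 * ((k : ℝ) + 1))) = -(1 / 2) := by
        push_cast
        field_simp
      rw [h2] at h1
      linarith
  have hCl := Cl_P (k := k) hρ hρ1.le hρ'
  let Pc : ℕ → C(I, Cube (k + 1)) := fun m => ⟨fun t => P m (t : ℝ),
    (continuous_P m).comp continuous_subtype_val⟩
  have hd : ∀ m, dist (Pc m) (Pc (m + 1)) ≤ 1 / ρ ^ k * ρ ^ m := by
    intro m
    rw [ContinuousMap.dist_le (by positivity)]
    intro t
    have := dist_of_Cl hρ hρ1.le (hCl m (t : ℝ))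
    calc dist (Pc m t) (Pc (m + 1) t) ≤ ρ ^ m / ρ ^ k := this
      _ = _ := by ring
  obtain ⟨p, hp⟩ := cauchySeq_tendsto_of_complete (cauchySeq_of_le_geometric ρ (1 / ρ ^ k) hρ1 hd)
  refine ⟨p, fun f => ?_⟩
  have hlim1 : Tendsto (fun m => ∫ t : I, f (P m (t : ℝ))) atTop (𝓝 (∫ t : I, f (p t))) := by
    refine tendsto_integral_of_dominated_convergence (fun _ => ‖f‖) (fun m => ?_)
      (integrable_const _) (fun m => Filter.Eventually.of_forall (fun t => f.norm_coe_le_norm _))
      (Filter.Eventually.of_forall (fun t => ?_))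
    · exact (f.continuous.comp ((continuous_P m).comp
        continuous_subtype_val)).aestronglyMeasurable
    · have h1 : Tendsto (fun m => Pc m t) atTop (𝓝 (p t)) :=
        ((continuous_eval_const t).tendsto p).comp hp
      exact (f.continuous.tendsto (p t)).comp h1
  have hlim2 : Tendsto (fun m => ∫ t : I, f (P m (t : ℝ))) atTop (𝓝 (lebn (k + 1) f)) := by
    rw [Metric.tendsto_atTop]
    intro ε hε
    have huc := CompactSpace.uniformContinuous_of_continuous f.continuous
    obtain ⟨δ, hδ, hδ'⟩ := Metric.uniformContinuous_iff.1 huc (ε / 4) (by positivity)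
    have h0 : Tendsto (fun m : ℕ => ρ ^ m / ρ ^ k) atTop (𝓝 0) := by
      have := (tendsto_pow_atTop_nhds_zero_of_lt_one hρ.le hρ1).div_const (ρ ^ k)
      simpa using this
    obtain ⟨m0, hm0⟩ := (h0.eventually_lt_const hδ).exists_forall_of_atTop
    refine ⟨m0, fun m hm => ?_⟩
    have h1 := est (k := k) hρ hρ1.le hρ' (ε := ε / 4) m f (fun x y hxy => by
      have h2 : dist x y < δ := lt_of_le_of_lt (dist_of_Cl hρ hρ1.le hxy) (hm0 m hm)
      have h3 := hδ' h2
      rw [dist_eq_norm] at h3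
      exact h3.le)
    rw [dist_eq_norm]
    linarith
  exact tendsto_nhds_unique hlim1 hlim2

end Pool.Agent.N768.UN
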